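import Mathlib

/-!
# Common bases of two matroids and exchanges of at most two elements
-/

set_option autoImplicit false

namespace Pool.Agent.H12S2

open Finset

variable {E : Type*} [Fintype E] [DecidableEq E] {K : Type*} [CommRing K]


omit [Fintype E] in
/-- The exchange property, with an element of the second base entering. -/
theorem rev_exchange [Finite E] (N : Matroid E) (k : ℕ)
    (hk : ∀ A : Finset E, N.IsBase (A : Set E) → A.card = k) {A A' : Finset E}
    (hA : N.IsBase (A : Set E)) (hA' : N.IsBase (A' : Set E)) {d : E} (hd' : d ∈ A') (hd : d ∉ A) :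
    ∃ a, a ∈ A ∧ a ∉ A' ∧ N.IsBase (insert d ((A : Set E) \ {a})) := by
  classical
  have hI : N.Indep ((insert d (A ∩ A') : Finset E) : Set E) := by
    refine hA'.indep.subset ?_
    intro x hx
    simp only [coe_insert, coe_inter, Set.mem_insert_iff, Set.mem_inter_iff, mem_coe] at hx ⊢
    rcases hx with rfl | h
    · exact hd'
    · exact h.2
  obtain ⟨D, hD, hID, hDu⟩ := hI.exists_isBase_subset_union_isBase hA
  have hDf : D.Finite := Set.toFinite D
  obtain ⟨D', rfl⟩ : ∃ D' : Finset E, (D' : Set E) = D := ⟨hDf.toFinset, hDf.coe_toFinset⟩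
  have hc : D'.card = k := hk _ hD
  have hcA : A.card = k := hk _ hA
  have hsub : D' ⊆ insert d A := by
    intro x hx
    have := hDu (mem_coe.2 hx)
    simp only [coe_insert, coe_inter, Set.mem_union, Set.mem_insert_iff, Set.mem_inter_iff,
      mem_coe] at this
    rw [mem_insert]
    tauto
  have hdD : d ∈ D' := by
    have := hID (by simp : d ∈ ((insert d (A ∩ A') : Finset E) : Set E))
    exact_mod_cast this
  have hne : (A \ D').Nonempty := by
    rw [Finset.nonempty_iff_ne_empty]
    intro h
    rw [Finset.sdiff_eq_empty_iff_subset] at h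
    have h1 : insert d A ⊆ D' := insert_subset hdD h
    have h2 := card_le_card h1
    rw [card_insert_of_notMem hd] at h2
    omega
  obtain ⟨a, ha⟩ := hne
  rw [mem_sdiff] at ha
  refine ⟨a, ha.1, ?_, ?_⟩
  · intro haA'
    have := hID (show a ∈ ((insert d (A ∩ A') : Finset E) : Set E) by simp [ha.1, haA'])
    exact ha.2 (by exact_mod_cast this)
  · have h1 : D' ⊆ insert d (A.erase a) := by
      intro x hx
      rcases mem_insert.1 (hsub hx) with rfl | h
      · exact mem_insert_self _ _
      · refine mem_insert_of_mem (mem_erase.2 ⟨?_, h⟩)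
        rintro rfl
        exact ha.2 hx
    have h2 : D' = insert d (A.erase a) := by
      refine Finset.eq_of_subset_of_card_le h1 ?_
      rw [card_insert_of_notMem (by simp [hd]), card_erase_of_mem ha.1, hcA, hc]
      have : 0 < A.card := card_pos.2 ⟨a, ha.1⟩
      omega
    have h3 : (insert d ((A : Set E) \ {a})) = (D' : Set E) := by
      rw [h2]; simp
    rw [h3]
    exact hD

/-- If the family `Y` of common bases is closed under exchanges of at most two elements and does not
contain the common base `A'`, there is a common independent set without common extension. -/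
theorem exists_stuck (N1 N2 : Matroid E) (k : ℕ)
    (hk1 : ∀ A : Finset E, N1.IsBase (A : Set E) → A.card = k)
    (hk2 : ∀ A : Finset E, N2.IsBase (A : Set E) → A.card = k)
    (C : Finset E) (Y : Finset (Finset E))
    (hY : ∀ A ∈ Y, C ⊆ A ∧ N1.IsBase (A : Set E) ∧ N2.IsBase (A : Set E))
    (hcl : ∀ A ∈ Y, ∀ A' : Finset E, C ⊆ A' → N1.IsBase (A' : Set E) → N2.IsBase (A' : Set E) →
      k ≤ (A ∩ A').card + 2 → A' ∈ Y)
    (hne : Y.Nonempty)
    (hout : ∃ A' : Finset E, C ⊆ A' ∧ N1.IsBase (A' : Set E) ∧ N2.IsBase (A' : Set E) ∧ A' ∉ Y) :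
    ∃ G : Finset E, C ⊆ G ∧ G.card + 1 = k ∧ N1.Indep (G : Set E) ∧ N2.Indep (G : Set E) ∧
      ∀ e, ¬ (N1.IsBase ((insert e G : Finset E) : Set E) ∧
        N2.IsBase ((insert e G : Finset E) : Set E)) := by
  classical
  -- a closest pair
  let P : Finset (Finset E × Finset E) :=
    (Y ×ˢ univ).filter fun p => C ⊆ p.2 ∧ N1.IsBase (p.2 : Set E) ∧ N2.IsBase (p.2 : Set E) ∧
      p.2 ∉ Y
  have hP : P.Nonempty := by
    obtain ⟨A, hA⟩ := hne
    obtain ⟨A', h1, h2, h3, h4⟩ := hout
    exact ⟨(A, A'), by simp [P, hA, h1, h2, h3, h4]⟩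
  obtain ⟨⟨A, A'⟩, hmem, hmax⟩ := P.exists_max_image (fun p => (p.1 ∩ p.2).card) hP
  simp only [P, mem_filter, mem_product, mem_univ, and_true] at hmem
  obtain ⟨hA, hCA', hA'1, hA'2, hA'Y⟩ := hmem
  have hCA : C ⊆ A := (hY A hA).1
  have hA1 : N1.IsBase (A : Set E) := (hY A hA).2.1
  have hA2 : N2.IsBase (A : Set E) := (hY A hA).2.2
  have hmax' : ∀ B ∈ Y, (B ∩ A').card ≤ (A ∩ A').card := by
    intro B hB
    exact hmax (B, A') (by simp [P, hB, hCA', hA'1, hA'2, hA'Y])
  have hAA' : A ≠ A' := fun h => hA'Y (h ▸ hA)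
  have hc : A.card = k := hk1 A hA1
  have hc' : A'.card = k := hk1 A' hA'1
  -- an element of `A'` outside `A`
  obtain ⟨d, hd', hd⟩ : ∃ d ∈ A', d ∉ A := by
    by_contra hcon
    push Not at hcon
    exact hAA' (Finset.eq_of_subset_of_card_le hcon (by rw [hc, hc'])).symm
  obtain ⟨a, ha1, ha2, hab⟩ := rev_exchange N1 k hk1 hA1 hA'1 hd' hd
  obtain ⟨b, hb1, hb2, hbb⟩ := rev_exchange N2 k hk2 hA2 hA'2 hd' hd
  have ha : a ∈ A ∧ a ∉ A' := ⟨ha1, ha2⟩
  have hb : b ∈ A ∧ b ∉ A' := ⟨hb1, hb2⟩
  -- a second element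
  have key : ∀ a b : E, a ∈ A → a ∉ A' → b ∈ A → b ∉ A' → a ≠ b →
      N1.IsBase (insert d ((A : Set E) \ {a})) → N2.IsBase (insert d ((A : Set E) \ {b})) →
      ∃ G : Finset E, C ⊆ G ∧ G.card + 1 = k ∧ N1.Indep (G : Set E) ∧ N2.Indep (G : Set E) ∧
      ∀ e, ¬ (N1.IsBase ((insert e G : Finset E) : Set E) ∧
        N2.IsBase ((insert e G : Finset E) : Set E)) := by
    intro a b ha ha' hb hb' hne h1 h2
    refine ⟨insert d ((A.erase a).erase b), ?_, ?_, ?_, ?_, ?_⟩
    · intro x hx
      have hx1 := hCA hx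
      have hx2 := hCA' hx
      refine mem_insert_of_mem (mem_erase.2 ⟨?_, mem_erase.2 ⟨?_, hx1⟩⟩)
      · rintro rfl; exact hb' hx2
      · rintro rfl; exact ha' hx2
    · rw [card_insert_of_notMem (by simp [hd]), card_erase_of_mem (mem_erase.2 ⟨hne.symm, hb⟩),
        card_erase_of_mem ha, hc]
      have : 2 ≤ A.card := by
        have : ({a, b} : Finset E) ⊆ A := by
          intro x hx
          simp only [mem_insert, mem_singleton] at hx
          rcases hx with rfl | rfl <;> assumption
        have := card_le_card this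
        rwa [card_pair hne] at this
      omega
    · refine h1.indep.subset ?_
      intro x
      simp only [coe_insert, coe_erase, Set.mem_insert_iff, Set.mem_diff, mem_coe,
        Set.mem_singleton_iff]
      tauto
    · refine h2.indep.subset ?_
      intro x
      simp only [coe_insert, coe_erase, Set.mem_insert_iff, Set.mem_diff, mem_coe,
        Set.mem_singleton_iff]
      tauto
    · rintro e ⟨he1, he2⟩
      set B : Finset E := insert e (insert d ((A.erase a).erase b)) with hB
      have hBY : B ∈ Y := by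
        refine hcl A hA B ?_ he1 he2 ?_
        · intro x hx
          have hx1 := hCA hx
          have hx2 := hCA' hx
          refine mem_insert_of_mem (mem_insert_of_mem (mem_erase.2 ⟨?_, mem_erase.2 ⟨?_, hx1⟩⟩))
          · rintro rfl; exact hb' hx2
          · rintro rfl; exact ha' hx2
        · have h3 : (A.erase a).erase b ⊆ A ∩ B := by
            intro x hx
            refine mem_inter.2 ⟨erase_subset _ _ (erase_subset _ _ hx), ?_⟩
            exact mem_insert_of_mem (mem_insert_of_mem hx)
          have h4 := card_le_card h3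
          rw [card_erase_of_mem (mem_erase.2 ⟨hne.symm, hb⟩), card_erase_of_mem ha, hc] at h4
          omega
      have h5 := hmax' B hBY
      have h6 : insert d (A ∩ A') ⊆ B ∩ A' := by
        intro x hx
        rw [mem_insert, mem_inter] at hx
        rcases hx with rfl | ⟨hx1, hx2⟩
        · exact mem_inter.2 ⟨mem_insert_of_mem (mem_insert_self _ _), hd'⟩
        · refine mem_inter.2 ⟨mem_insert_of_mem (mem_insert_of_mem (mem_erase.2 ⟨?_,
            mem_erase.2 ⟨?_, hx1⟩⟩)), hx2⟩
          · rintro rfl; exact hb' hx2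
          · rintro rfl; exact ha' hx2
      have h7 := card_le_card h6
      rw [card_insert_of_notMem (by simp [hd])] at h7
      omega
  by_cases hne' : a = b
  · subst hne'
    -- then `A - a + d` is a common base, closer to `A'`
    exfalso
    set B : Finset E := insert d (A.erase a) with hB
    have e1 : (B : Set E) = insert d ((A : Set E) \ {a}) := by simp [hB]
    have hBY : B ∈ Y := by
      refine hcl A hA B ?_ (by rw [e1]; exact hab) (by rw [e1]; exact hbb) ?_
      · intro x hx
        refine mem_insert_of_mem (mem_erase.2 ⟨?_, hCA hx⟩)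
        rintro rfl; exact ha.2 (hCA' hx)
      · have h3 : A.erase a ⊆ A ∩ B := by
          intro x hx
          exact mem_inter.2 ⟨erase_subset _ _ hx, mem_insert_of_mem hx⟩
        have h4 := card_le_card h3
        rw [card_erase_of_mem ha.1, hc] at h4
        omega
    have h5 := hmax' B hBY
    have h6 : insert d (A ∩ A') ⊆ B ∩ A' := by
      intro x hx
      rw [mem_insert, mem_inter] at hx
      rcases hx with rfl | ⟨hx1, hx2⟩
      · exact mem_inter.2 ⟨mem_insert_self _ _, hd'⟩
      · refine mem_inter.2 ⟨mem_insert_of_mem (mem_erase.2 ⟨?_, hx1⟩), hx2⟩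
        rintro rfl; exact ha.2 hx2
    have h7 := card_le_card h6
    rw [card_insert_of_notMem (by simp [hd])] at h7
    omega
  · exact key a b ha.1 ha.2 hb.1 hb.2 hne' hab hbb

/-- Inclusion-exclusion: if every member of `Y` contains `C`, meets `Z`, and meets the complement of
`C ∪ Z`, and the sums over the members of `Y` containing a larger set vanish, then the whole sum
vanishes. -/
theorem sum_eq_zero_of_cover (k : ℕ) (F : Finset E → K) (C Z : Finset E) (Y : Finset (Finset E))
    (hY : ∀ A ∈ Y, C ⊆ A ∧ A.card = k) (hCZ : Disjoint C Z)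
    (hZ : ∀ A ∈ Y, (A ∩ Z).Nonempty) (hZc : ∀ A ∈ Y, ¬ A ⊆ C ∪ Z)
    (hind : ∀ D ⊆ Z, D.Nonempty → (C ∪ D).card < k → ∑ A ∈ Y.filter (fun A => C ∪ D ⊆ A), F A = 0) :
    ∑ A ∈ Y, F A = 0 := by
  classical
  have h1 : ∑ A ∈ Y, ∑ D ∈ Z.powerset, (if D ⊆ A then (-1 : K) ^ D.card * F A else 0) = 0 := by
    refine Finset.sum_eq_zero fun A hA => ?_
    rw [← Finset.sum_filter]
    have e1 : Z.powerset.filter (fun D => D ⊆ A) = (A ∩ Z).powerset := by
      ext D
      simp only [mem_filter, mem_powerset, subset_inter_iff]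
      tauto
    rw [e1, ← Finset.sum_mul]
    have e2 : ∑ D ∈ (A ∩ Z).powerset, (-1 : K) ^ D.card = 0 := by
      have := Finset.sum_powerset_neg_one_pow_card_of_nonempty (hZ A hA)
      have h := congrArg (Int.cast : ℤ → K) this
      push_cast at h
      exact h
    rw [e2, zero_mul]
  rw [Finset.sum_comm] at h1
  rw [← Finset.sum_erase_add _ _ (Finset.empty_mem_powerset Z)] at h1
  have h2 : ∑ D ∈ Z.powerset.erase ∅, ∑ A ∈ Y, (if D ⊆ A then (-1 : K) ^ D.card * F A else 0) =
      0 := by
    refine Finset.sum_eq_zero fun D hD => ?_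
    rw [mem_erase, mem_powerset] at hD
    have hDne : D.Nonempty := Finset.nonempty_iff_ne_empty.2 hD.1
    have e1 : ∀ A ∈ Y, (if D ⊆ A then (-1 : K) ^ D.card * F A else 0) =
        (if C ∪ D ⊆ A then (-1 : K) ^ D.card * F A else 0) := by
      intro A hA
      have hCA := (hY A hA).1
      have : D ⊆ A ↔ C ∪ D ⊆ A := by
        rw [union_subset_iff]
        exact ⟨fun h => ⟨hCA, h⟩, fun h => h.2⟩
      simp only [this]
    rw [Finset.sum_congr rfl e1, ← Finset.sum_filter, ← Finset.mul_sum]
    rcases Nat.lt_or_ge (C ∪ D).card k with h3 | h3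
    · rw [hind D hD.2 hDne h3, mul_zero]
    · have e2 : Y.filter (fun A => C ∪ D ⊆ A) = ∅ := by
        rw [Finset.filter_eq_empty_iff]
        intro A hA h4
        have h5 : C ∪ D = A := Finset.eq_of_subset_of_card_le h4 (by rw [(hY A hA).2]; exact h3)
        exact hZc A hA (h5 ▸ union_subset_union_right hD.2)
      rw [e2, Finset.sum_empty, mul_zero]
  rw [h2, zero_add] at h1
  simpa using h1

/-- **Component sums.** Let `F` be supported exactly on the common bases of `N1` and `N2`, and let
all total sums over the sets containing `C`, `|C| < k`, vanish. Then the sums over the families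
closed under exchanges of at most two elements vanish as well. -/
theorem sum_closed (N1 N2 : Matroid E) (k : ℕ) (F : Finset E → K)
    (hF : ∀ A, F A ≠ 0 ↔ N1.IsBase (A : Set E) ∧ N2.IsBase (A : Set E))
    (hk1 : ∀ A : Finset E, N1.IsBase (A : Set E) → A.card = k)
    (hk2 : ∀ A : Finset E, N2.IsBase (A : Set E) → A.card = k)
    (hsum : ∀ C : Finset E, C.card < k → ∑ A ∈ univ.filter (fun A => C ⊆ A), F A = 0) :
    ∀ (n : ℕ) (C : Finset E), C.card + (n + 1) = k → ∀ Y : Finset (Finset E),
      (∀ A ∈ Y, C ⊆ A ∧ F A ≠ 0) →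
      (∀ A ∈ Y, ∀ A' : Finset E, C ⊆ A' → F A' ≠ 0 → k ≤ (A ∩ A').card + 2 → A' ∈ Y) →
      ∑ A ∈ Y, F A = 0 := by
  classical
  intro n
  induction n using Nat.strong_induction_on with
  | _ n ih =>
  intro C hC Y hY hcl
  by_cases hne : Y.Nonempty
  swap
  · rw [Finset.not_nonempty_iff_eq_empty.1 hne, Finset.sum_empty]
  by_cases hout : ∃ A' : Finset E, C ⊆ A' ∧ F A' ≠ 0 ∧ A' ∉ Y
  swap
  · push Not at hout
    rw [← hsum C (by omega)]
    refine Finset.sum_subset ?_ ?_
    · intro A hA
      simp [(hY A hA).1]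
    · intro A hA hAY
      by_contra h
      exact hAY (hout A (by simpa using hA) h)
  obtain ⟨G, hCG, hGc, hG1, hG2, hG⟩ := exists_stuck N1 N2 k hk1 hk2 C Y
    (fun A hA => ⟨(hY A hA).1, (hF A).1 (hY A hA).2⟩)
    (fun A hA A' h1 h2 h3 h4 => hcl A hA A' h1 ((hF A').2 ⟨h2, h3⟩) h4) hne
    (by
      obtain ⟨A', h1, h2, h3⟩ := hout
      exact ⟨A', h1, ((hF A').1 h2).1, ((hF A').1 h2).2, h3⟩)
  -- every base has an element extending `G`
  have ext : ∀ (N : Matroid E), (∀ A : Finset E, N.IsBase (A : Set E) → A.card = k) →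
      N.Indep (G : Set E) → ∀ A : Finset E, C ⊆ A → N.IsBase (A : Set E) →
      ∃ e ∈ A, e ∉ C ∧ N.IsBase ((insert e G : Finset E) : Set E) := by
    intro N hN hGN A hCA hA
    obtain ⟨e, he, heG⟩ := hGN.exists_insert_of_not_isBase
      (fun h => by have := hN G h; omega) hA
    refine ⟨e, by simpa using he.1, fun h => he.2 (by simpa using hCG h), ?_⟩
    obtain ⟨D, hD, hGD⟩ := heG.exists_isBase_superset
    have hDf : D.Finite := Set.toFinite D
    obtain ⟨D', rfl⟩ : ∃ D' : Finset E, (D' : Set E) = D := ⟨hDf.toFinset, hDf.coe_toFinset⟩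
    have h2 : D'.card = k := hN _ hD
    have h3 : (insert e G : Finset E) = D' := by
      refine Finset.eq_of_subset_of_card_le ?_ ?_
      · intro x hx
        have h1 : x ∈ (D' : Set E) := by
          refine hGD ?_
          rcases mem_insert.1 hx with rfl | h
          · exact Set.mem_insert _ _
          · exact Set.mem_insert_of_mem _ (mem_coe.2 h)
        exact mem_coe.1 h1
      · rw [h2, card_insert_of_notMem (fun h => he.2 (mem_coe.2 h))]
        omega
    rw [h3]
    exact hD
  let Z : Finset E := univ.filter fun e => e ∉ C ∧ ¬ N1.IsBase ((insert e G : Finset E) : Set E)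
  refine sum_eq_zero_of_cover k F C Z Y
    (fun A hA => ⟨(hY A hA).1, hk1 A ((hF A).1 (hY A hA).2).1⟩) ?_ ?_ ?_ ?_
  · rw [Finset.disjoint_left]
    intro x hx hx'
    simp only [Z, mem_filter, mem_univ, true_and] at hx'
    exact hx'.1 hx
  · intro A hA
    obtain ⟨e, he, heC, heB⟩ := ext N2 hk2 hG2 A (hY A hA).1 ((hF A).1 (hY A hA).2).2
    refine ⟨e, mem_inter.2 ⟨he, ?_⟩⟩
    simp only [Z, mem_filter, mem_univ, true_and]
    exact ⟨heC, fun h => hG e ⟨h, heB⟩⟩
  · intro A hA hsub
    obtain ⟨e, he, heC, heB⟩ := ext N1 hk1 hG1 A (hY A hA).1 ((hF A).1 (hY A hA).2).1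
    rcases mem_union.1 (hsub he) with h | h
    · exact heC h
    · simp only [Z, mem_filter, mem_univ, true_and] at h
      exact h.2 heB
  · intro D hD hDne hDk
    have hdisj : Disjoint C D := by
      rw [Finset.disjoint_left]
      intro x hx hx'
      have := hD hx'
      simp only [Z, mem_filter, mem_univ, true_and] at this
      exact this.1 hx
    have hcard : (C ∪ D).card = C.card + D.card := card_union_of_disjoint hdisj
    have hDpos : 0 < D.card := hDne.card_pos
    refine ih (k - (C ∪ D).card - 1) (by omega) (C ∪ D) (by omega) _ ?_ ?_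
    · intro A hA
      rw [mem_filter] at hA
      exact ⟨hA.2, (hY A hA.1).2⟩
    · intro A hA A' h1 h2 h3
      rw [mem_filter] at hA ⊢
      exact ⟨hcl A hA.1 A' (subset_union_left.trans h1) h2 h3, h1⟩

/-- One step between common bases: at most two elements are exchanged. -/
def Step2 (F : Finset E → K) (k : ℕ) (A A' : Finset E) : Prop :=
  F A' ≠ 0 ∧ k ≤ (A ∩ A').card + 2

/-- **Two halves.** If `E` has `2 k` elements, the complement of a common base `S` can be reached
from `S`. -/
theorem reach_compl (N1 N2 : Matroid E) (k : ℕ) (F : Finset E → K)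
    (hF : ∀ A, F A ≠ 0 ↔ N1.IsBase (A : Set E) ∧ N2.IsBase (A : Set E))
    (hk1 : ∀ A : Finset E, N1.IsBase (A : Set E) → A.card = k)
    (hk2 : ∀ A : Finset E, N2.IsBase (A : Set E) → A.card = k)
    (hsum : ∀ C : Finset E, C.card < k → ∑ A ∈ univ.filter (fun A => C ⊆ A), F A = 0)
    (hE : Fintype.card E = 2 * k) {S : Finset E} (hS : F S ≠ 0) :
    Relation.ReflTransGen (Step2 F k) S Sᶜ := by
  classical
  have hSk : S.card = k := hk1 S ((hF S).1 hS).1
  rcases Nat.eq_zero_or_pos k with hk0 | hkpos
  · have e1 : S = Sᶜ := by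
      have h1 : Fintype.card E = 0 := by omega
      haveI := Fintype.card_eq_zero_iff.1 h1
      exact Subsingleton.elim _ _
    rw [← e1]
  by_contra hcon
  let Y : Finset (Finset E) := univ.filter fun A => Relation.ReflTransGen (Step2 F k) S A
  have hYF : ∀ A ∈ Y, F A ≠ 0 := by
    intro A hA
    simp only [Y, mem_filter, mem_univ, true_and] at hA
    rcases Relation.ReflTransGen.cases_tail hA with h | ⟨B, _, h⟩
    · rwa [h]
    · exact h.1
  have hSY : S ∈ Y := by simp [Y, Relation.ReflTransGen.refl]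
  have hScY : Sᶜ ∉ Y := by simpa [Y] using hcon
  have hcl : ∀ A ∈ Y, ∀ A' : Finset E, F A' ≠ 0 → k ≤ (A ∩ A').card + 2 → A' ∈ Y := by
    intro A hA A' h1 h2
    simp only [Y, mem_filter, mem_univ, true_and] at hA ⊢
    exact hA.tail ⟨h1, h2⟩
  have hall : ∀ C : Finset E, C.card < k → ∑ A ∈ Y.filter (fun A => C ⊆ A), F A = 0 := by
    intro C hC
    refine sum_closed N1 N2 k F hF hk1 hk2 hsum (k - C.card - 1) C (by omega) _ ?_ ?_
    · intro A hA
      rw [mem_filter] at hA
      exact ⟨hA.2, hYF A hA.1⟩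
    · intro A hA A' h1 h2 h3
      rw [mem_filter] at hA ⊢
      exact ⟨hcl A hA.1 A' h2 h3, h1⟩
  -- inclusion-exclusion over the subsets of `S`
  have h1 : ∑ A ∈ Y, ∑ D ∈ S.powerset, (if D ⊆ A then (-1 : K) ^ D.card * F A else 0) = 0 := by
    refine Finset.sum_eq_zero fun A hA => ?_
    rw [← Finset.sum_filter]
    have e1 : S.powerset.filter (fun D => D ⊆ A) = (A ∩ S).powerset := by
      ext D
      simp only [mem_filter, mem_powerset, subset_inter_iff]
      tauto
    rw [e1, ← Finset.sum_mul]
    have hne : (A ∩ S).Nonempty := by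
      rw [Finset.nonempty_iff_ne_empty]
      intro h
      have h2 : A ⊆ Sᶜ := by
        intro x hx
        rw [mem_compl]
        intro hxS
        have : x ∈ A ∩ S := mem_inter.2 ⟨hx, hxS⟩
        rw [h] at this
        simp at this
      have h3 : A.card = k := hk1 A ((hF A).1 (hYF A hA)).1
      have h4 : A = Sᶜ := Finset.eq_of_subset_of_card_le h2 (by
        rw [card_compl, hE, hSk, h3]; omega)
      exact hScY (h4 ▸ hA)
    have e2 : ∑ D ∈ (A ∩ S).powerset, (-1 : K) ^ D.card = 0 := by
      have := Finset.sum_powerset_neg_one_pow_card_of_nonempty hne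
      have h := congrArg (Int.cast : ℤ → K) this
      push_cast at h
      exact h
    rw [e2, zero_mul]
  rw [Finset.sum_comm] at h1
  rw [← Finset.sum_erase_add _ _ (mem_powerset.2 (subset_refl S))] at h1
  have h2 : ∑ D ∈ S.powerset.erase S, ∑ A ∈ Y, (if D ⊆ A then (-1 : K) ^ D.card * F A else 0) =
      0 := by
    refine Finset.sum_eq_zero fun D hD => ?_
    rw [mem_erase, mem_powerset] at hD
    have h3 : D.card < k := by
      rw [← hSk]
      exact card_lt_card (Finset.ssubset_iff_subset_ne.2 ⟨hD.2, hD.1⟩)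
    rw [← Finset.sum_filter, ← Finset.mul_sum, hall D h3, mul_zero]
  rw [h2, zero_add, ← Finset.sum_filter] at h1
  have e3 : Y.filter (fun A => S ⊆ A) = {S} := by
    ext A
    rw [mem_filter, mem_singleton]
    constructor
    · rintro ⟨hA, hSA⟩
      exact (Finset.eq_of_subset_of_card_le hSA (by
        rw [hSk, hk1 A ((hF A).1 (hYF A hA)).1])).symm
    · rintro rfl
      exact ⟨hSY, subset_refl _⟩
  rw [e3, Finset.sum_singleton] at h1
  have h4 : F S = (-1 : K) ^ S.card * ((-1 : K) ^ S.card * F S) := by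
    rw [← mul_assoc, ← mul_pow]
    simp
  rw [h1, mul_zero] at h4
  exact hS h4

end Pool.Agent.H12S2
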