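import Pool.Agent.H12S2.Path
import Pool.Agent.H94T.Mat

/-!
# Two bases of a matroid which is representable over any field
-/

set_option autoImplicit false

namespace Pool.Agent.H12S2

open Finset Pool.Agent.H68Rg Pool.Agent.H94T

/-- **Swap by exchanges of at most two elements, every field.** -/
theorem two_swap {α K V : Type*} [Field K] [AddCommGroup V] [Module K V]
    (M : Matroid α) (φ : α → V) (hφ : ∀ X ⊆ M.E, M.Indep X ↔ LinearIndepOn K φ X)
    {B B' : Set α} (hB : M.IsBase B) (hB' : M.IsBase B') (hfin : B.Finite) :
    Relation.ReflTransGen (TwoExchange M) (B, B') (B', B) :=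
  two_of_paths M φ hφ hB hB' hfin fun E h => path_two E h

end Pool.Agent.H12S2
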