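import Pool.Agent.H12S2.Sum

/-!
# The two halves of a family of vectors
-/

set_option autoImplicit false

namespace Pool.Agent.H12S2

open Finset Pool.Agent.H68Rg

variable {r : ℕ} {K : Type*} [Field K]

/-- The matroid of a family of vectors. -/
noncomputable def vecMatroid (E : Fin r ⊕ Fin r → Fin r → K) : Matroid (Fin r ⊕ Fin r) :=
  (IndepMatroid.ofFinite (E := Set.univ) Set.finite_univ (fun I => LinearIndepOn K E I)
    (linearIndepOn_empty K E)
    (fun _ _ hJ hIJ => hJ.mono hIJ)
    (by
      intro I J hI hJ hlt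
      by_contra hcon
      push Not at hcon
      have h1 : Submodule.span K (E '' J) ≤ Submodule.span K (E '' I) := by
        rw [Submodule.span_le]
        rintro _ ⟨e, he, rfl⟩
        by_cases heI : e ∈ I
        · exact Submodule.subset_span ⟨e, heI, rfl⟩
        · by_contra hsp
          exact hcon e he heI (hI.insert hsp)
      have h2 := Submodule.finrank_mono h1
      have h3 : ∀ L : Set (Fin r ⊕ Fin r), LinearIndepOn K E L →
          Module.finrank K (Submodule.span K (E '' L)) = L.ncard := by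
        intro L hL
        classical
        haveI : Fintype L := Fintype.ofFinite L
        have h4 := finrank_span_eq_card (R := K) hL
        have h5 : Set.range (fun x : L => E x) = E '' L := by
          ext y
          simp
        rw [h5] at h4
        rw [h4, ← Nat.card_eq_fintype_card, Nat.card_coe_set_eq]
      rw [h3 I hI, h3 J hJ] at h2
      omega)
    (fun _ _ => Set.subset_univ _)).matroid

theorem vecMatroid_indep (E : Fin r ⊕ Fin r → Fin r → K) (I : Set (Fin r ⊕ Fin r)) :
    (vecMatroid E).Indep I ↔ LinearIndepOn K E I := by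
  simp [vecMatroid]

theorem vecMatroid_ground (E : Fin r ⊕ Fin r → Fin r → K) : (vecMatroid E).E = Set.univ := by
  simp [vecMatroid]

theorem vecMatroid_isBase (E : Fin r ⊕ Fin r → Fin r → K)
    (h : (mat E (univ.map ⟨Sum.inl, Sum.inl_injective⟩)).det ≠ 0) (A : Finset (Fin r ⊕ Fin r)) :
    (vecMatroid E).IsBase (A : Set (Fin r ⊕ Fin r)) ↔
      LinearIndepOn K E (A : Set (Fin r ⊕ Fin r)) ∧ A.card = r := by
  classical
  have hle : ∀ D : Finset (Fin r ⊕ Fin r), LinearIndepOn K E (D : Set (Fin r ⊕ Fin r)) →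
      D.card ≤ r := by
    intro D hD
    have := LinearIndependent.fintype_card_le_finrank (show LinearIndependent K
      (fun a : (D : Set (Fin r ⊕ Fin r)) => E a) from hD)
    simpa using this
  have hsup : ∀ D : Finset (Fin r ⊕ Fin r), LinearIndepOn K E (D : Set (Fin r ⊕ Fin r)) →
      D.card = r → (vecMatroid E).IsBase (D : Set (Fin r ⊕ Fin r)) := by
    intro D hD hDc
    obtain ⟨B, hB, hDB⟩ := ((vecMatroid_indep E _).2 hD).exists_isBase_superset
    obtain ⟨B', rfl⟩ : ∃ B' : Finset (Fin r ⊕ Fin r), (B' : Set (Fin r ⊕ Fin r)) = B :=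
      ⟨(Set.toFinite B).toFinset, (Set.toFinite B).coe_toFinset⟩
    have h1 := hle B' ((vecMatroid_indep E _).1 hB.indep)
    have h2 : D = B' := Finset.eq_of_subset_of_card_le (coe_subset.1 hDB) (by omega)
    rw [h2]
    exact hB
  constructor
  · intro hA
    refine ⟨(vecMatroid_indep E _).1 hA.indep, ?_⟩
    have h1 := hsup _ (indep_of_det h).1 (card_of_det h).1
    have h2 := hA.ncard_eq_ncard_of_isBase h1
    rw [Set.ncard_coe_finset, Set.ncard_coe_finset, (card_of_det h).1] at h2
    exact h2
  · rintro ⟨h1, h2⟩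
    exact hsup A h1 h2

/-- **Two halves of a family of vectors.** From one half to the other one by exchanges of at most
two elements. -/
theorem path_two (E : Fin r ⊕ Fin r → Fin r → K)
    (h : (mat E (univ.map ⟨Sum.inl, Sum.inl_injective⟩)).det ≠ 0) :
    Relation.ReflTransGen (fun A A' => (mat E A).det ≠ 0 ∧ (mat E A').det ≠ 0 ∧
        r ≤ (A ∩ A').card + 2)
      (univ.map ⟨Sum.inl, Sum.inl_injective⟩) (univ.map ⟨Sum.inl, Sum.inl_injective⟩)ᶜ := by
  classical
  have hdual : ∀ A : Finset (Fin r ⊕ Fin r),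
      (Matroid.dual (vecMatroid E)).IsBase (A : Set (Fin r ⊕ Fin r)) ↔
        LinearIndepOn K E ((Aᶜ : Finset (Fin r ⊕ Fin r)) : Set (Fin r ⊕ Fin r)) ∧
          Aᶜ.card = r := by
    intro A
    rw [← vecMatroid_isBase E h, Matroid.dual_isBase_iff (hB := by
      rw [vecMatroid_ground]; exact Set.subset_univ _), vecMatroid_ground]
    have e1 : (Set.univ \ (A : Set (Fin r ⊕ Fin r))) =
        ((Aᶜ : Finset (Fin r ⊕ Fin r)) : Set (Fin r ⊕ Fin r)) := by
      ext x; simp
    rw [e1]
  have hcardE : Fintype.card (Fin r ⊕ Fin r) = 2 * r := by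
    rw [Fintype.card_sum, Fintype.card_fin]; omega
  have hcc : ∀ A : Finset (Fin r ⊕ Fin r), Aᶜ.card = r → A.card = r := by
    intro A hA
    have := Finset.card_add_card_compl A
    omega
  have hF : ∀ A : Finset (Fin r ⊕ Fin r), (mat E A).det ≠ 0 ↔
      (vecMatroid E).IsBase (A : Set (Fin r ⊕ Fin r)) ∧
      (Matroid.dual (vecMatroid E)).IsBase (A : Set (Fin r ⊕ Fin r)) := by
    intro A
    rw [vecMatroid_isBase E h, hdual]
    constructor
    · intro hA
      exact ⟨⟨(indep_of_det hA).1, (card_of_det hA).1⟩, (indep_of_det hA).2, (card_of_det hA).2⟩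
    · rintro ⟨⟨h1, _⟩, h2, _⟩
      exact det_ne E A h1 h2
  have hreach := reach_compl (vecMatroid E) (Matroid.dual (vecMatroid E)) r
    (fun A => (mat E A).det) hF (fun A hA => ((vecMatroid_isBase E h A).1 hA).2)
    (fun A hA => hcc A ((hdual A).1 hA).2) (fun C hC => sum_mat_zero E C hC) hcardE h
  have main : ∀ A, Relation.ReflTransGen (Step2 (fun A => (mat E A).det) r)
      (univ.map ⟨Sum.inl, Sum.inl_injective⟩) A → (mat E A).det ≠ 0 ∧
      Relation.ReflTransGen (fun A A' => (mat E A).det ≠ 0 ∧ (mat E A').det ≠ 0 ∧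
        r ≤ (A ∩ A').card + 2) (univ.map ⟨Sum.inl, Sum.inl_injective⟩) A := by
    intro A hA
    induction hA with
    | refl => exact ⟨h, Relation.ReflTransGen.refl⟩
    | tail _ hst ih => exact ⟨hst.1, ih.2.tail ⟨ih.1, hst.1, hst.2⟩⟩
  exact (main _ hreach).2

end Pool.Agent.H12S2
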