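import Pool.Agent.H68Rg.OfRG
import Pool.Agent.H12S2.Core

/-!
# Total sums of the products of complementary determinants
-/

set_option autoImplicit false

namespace Pool.Agent.H12S2

open Finset Pool.Agent.H68Rg

variable {r : ℕ} {K : Type*} [Field K]

/-- The sum over all sets containing `C`. -/
theorem sum_mat (E : Fin r ⊕ Fin r → Fin r → K) (C : Finset (Fin r ⊕ Fin r)) :
    ∑ A ∈ univ.filter (fun A : Finset (Fin r ⊕ Fin r) => C ⊆ A), (mat E A).det =
      (mat E C).det := by
  classical
  let f := (Matrix.detRowAlternating (R := K) (n := Fin r ⊕ Fin r)).toMultilinearMap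
  let m : Fin r ⊕ Fin r → (Fin r ⊕ Fin r → K) := fun a => Sum.elim (E a) 0
  let m' : Fin r ⊕ Fin r → (Fin r ⊕ Fin r → K) := fun a => if a ∈ C then 0 else Sum.elim 0 (E a)
  have h1 : f (m + m') = ∑ A : Finset (Fin r ⊕ Fin r), f (A.piecewise m m') := f.map_add_univ m m'
  have h2 : ∀ A : Finset (Fin r ⊕ Fin r), f (A.piecewise m m') =
      if C ⊆ A then (mat E A).det else 0 := by
    intro A
    split_ifs with hCA
    · rw [← Matrix.det_transpose]
      change Matrix.det _ = Matrix.det _
      congr 1
      ext a x
      by_cases haA : a ∈ A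
      · rw [Finset.piecewise_eq_of_mem _ _ _ haA]
        rcases x with i | i <;> simp [m, mat, haA]
      · have haC : a ∉ C := fun h => haA (hCA h)
        rw [Finset.piecewise_eq_of_notMem _ _ _ haA]
        rcases x with i | i <;> simp [m', mat, haA, haC]
    · obtain ⟨a, haC, haA⟩ := Finset.not_subset.1 hCA
      refine f.map_coord_zero a ?_
      rw [Finset.piecewise_eq_of_notMem _ _ _ haA]
      simp [m', haC]
  have h3 : f (m + m') = (mat E C).det := by
    let N : Matrix (Fin r ⊕ Fin r) (Fin r ⊕ Fin r) K := Matrix.of (m + m')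
    let U : Matrix (Fin r ⊕ Fin r) (Fin r ⊕ Fin r) K := Matrix.fromBlocks 1 0 (-1) 1
    have hU : U.det = 1 := by
      simp [U, Matrix.det_fromBlocks_zero₁₂]
    have hNU : N * U = (mat E C).transpose := by
      ext a x
      rw [Matrix.mul_apply, Fintype.sum_sum_type]
      by_cases haC : a ∈ C
      · rcases x with i | i <;>
          simp [N, U, m, m', mat, haC, Matrix.one_apply]
      · rcases x with i | i <;>
          simp [N, U, m, m', mat, haC, Matrix.one_apply]
    have h4 : N.det = (mat E C).det := by
      rw [← Matrix.det_transpose (mat E C), ← hNU, Matrix.det_mul, hU, mul_one]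
    rw [← h4]
    rfl
  rw [← h3, h1, Finset.sum_congr rfl fun A _ => h2 A, ← Finset.sum_filter]

/-- Below the rank the total sums vanish. -/
theorem sum_mat_zero (E : Fin r ⊕ Fin r → Fin r → K) (C : Finset (Fin r ⊕ Fin r))
    (hC : C.card < r) :
    ∑ A ∈ univ.filter (fun A : Finset (Fin r ⊕ Fin r) => C ⊆ A), (mat E A).det = 0 := by
  rw [sum_mat]
  by_contra h
  have := (card_of_det h).1
  omega

/-- The determinant does not vanish if both families are independent. -/
theorem det_ne (E : Fin r ⊕ Fin r → Fin r → K) (A : Finset (Fin r ⊕ Fin r))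
    (h1 : LinearIndepOn K E (A : Set (Fin r ⊕ Fin r)))
    (h2 : LinearIndepOn K E ((Aᶜ : Finset (Fin r ⊕ Fin r)) : Set (Fin r ⊕ Fin r))) :
    (mat E A).det ≠ 0 := by
  classical
  have hcol : LinearIndependent K (mat E A).col := by
    rw [Fintype.linearIndependent_iff]
    intro c hc a
    have htop : ∑ b ∈ A, c b • E b = 0 := by
      ext i
      have := congrFun hc (Sum.inl i)
      simp only [Finset.sum_apply, Pi.smul_apply, smul_eq_mul, Pi.zero_apply] at this ⊢
      rw [← this, ← Finset.sum_filter_add_sum_filter_not univ (fun b => b ∈ A)]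
      have e1 : ∑ b ∈ univ.filter (fun b => b ∉ A), c b * (mat E A).col b (Sum.inl i) = 0 := by
        refine Finset.sum_eq_zero fun b hb => ?_
        simp only [mem_filter, mem_univ, true_and] at hb
        simp [Matrix.col, mat, hb]
      rw [e1, add_zero]
      have e2 : univ.filter (fun b => b ∈ A) = A := by ext; simp
      rw [e2]
      refine Finset.sum_congr rfl fun b hb => ?_
      simp [Matrix.col, mat, hb]
    have hbot : ∑ b ∈ Aᶜ, c b • E b = 0 := by
      ext i
      have := congrFun hc (Sum.inr i)
      simp only [Finset.sum_apply, Pi.smul_apply, smul_eq_mul, Pi.zero_apply] at this ⊢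
      rw [← this, ← Finset.sum_compl_add_sum A]
      have e1 : ∑ b ∈ A, c b * (mat E A).col b (Sum.inr i) = 0 := by
        refine Finset.sum_eq_zero fun b hb => ?_
        simp [Matrix.col, mat, hb]
      rw [e1, add_zero]
      refine Finset.sum_congr rfl fun b hb => ?_
      simp only [mem_compl] at hb
      simp [Matrix.col, mat, hb]
    by_cases ha : a ∈ A
    · exact (linearIndepOn_finset_iff.1 h1) c htop a ha
    · exact (linearIndepOn_finset_iff.1 h2) c hbot a (by simpa using ha)
  exact ((Matrix.isUnit_iff_isUnit_det _).1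
    (Matrix.linearIndependent_cols_iff_isUnit.1 hcol)).ne_zero

end Pool.Agent.H12S2
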